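import Pool.Agent.Y862.OGI

set_option autoImplicit false

/-!
# Isolated pairs of consecutive primes in the Cunningham sequences of the second kind: one half of the times

`a_j(p) = 2 ^ j * (p - 1) + 1`. For every `R` and `ε > 0` there is `M` such that for EVERY multiple `N` of
`M` there is `L` such that among any `T ≥ L` consecutive multiples `j` of `N` at least `(1/2 - ε) T` have
the following property: for at least `x ^ (1 - η)` primes `p ≤ x`, for every `η > 0` and arbitrarily large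
`x`, the term at time `j` is prime, all terms at times `0 < l < j` are composite, the `R` terms after
time `j` are composite, and `p` is not a term at a time `0 < l ≤ R` of the sequence of another prime.
-/

namespace Pool.Agent.Results.MP_39b545_nt.HalfOfIsolatedGaps

open Filter

theorem result (R : ℕ) (ε : ℝ) (hε : 0 < ε) :
    ∃ M : ℕ, 0 < M ∧ ∀ N : ℕ, 0 < N → M ∣ N → ∃ L : ℕ, ∀ T : ℕ, L ≤ T → ∀ u : ℕ,
      (1 / 2 - ε) * (T : ℝ) ≤ ({k : ℕ | u < k ∧ k ≤ u + T ∧ ∀ η : ℝ, 0 < η → ∃ᶠ x : ℝ in atTop,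
        x ^ (1 - η) ≤ ({p : ℕ | (p : ℝ) ≤ x ∧ p.Prime ∧ (2 ^ (N * k) * (p - 1) + 1).Prime ∧
          (∀ l, 0 < l → l < N * k → ¬ (2 ^ l * (p - 1) + 1).Prime) ∧
          ∀ l, 0 < l → l ≤ R → ¬ (2 ^ (N * k + l) * (p - 1) + 1).Prime ∧
            ∀ q : ℕ, q.Prime → 2 ^ l * (q - 1) + 1 ≠ p}.ncard : ℝ)}.ncard : ℝ) :=
  Pool.Agent.Y862.transferH 2 (-1) 1 le_rfl (by norm_num) (by norm_num) one_pos
    (fun p hp h => absurd (Nat.dvd_one.1 (by simpa using h)) hp.one_lt.ne')
    (fun p j => 2 ^ j * (p - 1) + 1)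
    (fun p j hp => by
      have h1 : 1 ≤ p := hp.one_lt.le
      rw [Pool.Agent.H447R3.IT.iter, Pool.Agent.W218.OG.B_two]
      push_cast [Nat.cast_sub h1]
      ring) R ε hε

end Pool.Agent.Results.MP_39b545_nt.HalfOfIsolatedGaps
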