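import Pool.Agent.Y816.PD.Chain

set_option autoImplicit false

/-!
# Cunningham chains of the second kind of exact length `k` at integers with restricted digits

`c j n = 2 ^ j * (n - 1) + 1` is the `j`-th iterate of `n` under `n ↦ 2 n - 1`. The integers `n < b ^ K` whose `i`-th
digit in base `b` belongs to an arbitrary set `A i` (for all `i < K`) are considered, the product of the
`|A i|` being at least `exp (- c₀ K) b ^ K`.
-/

namespace Pool.Agent.Results.MP_39b545_nt.RestrictedDigits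

open Finset Filter
open Pool.Agent.Y816.PD (ND NA)

/-- the `j`-th iterate of `n` under `n ↦ 2 n - 1` -/
def c (j n : ℕ) : ℕ := 2 ^ j * (n - 1) + 1

/-- All prime factors of `c 0 n, ..., c (k - 1) n` are larger than `n ^ (1 / r)`. -/
def R (k r : ℕ) : Set ℕ :=
  {n | ∀ j < k, ∀ p : ℕ, p.Prime → p ∣ c j n → (n : ℝ) ^ (1 / (r : ℝ)) < (p : ℝ)}

/-- The `n` of `R k r` for which `c 0 n, ..., c (k - 1) n` have at most `r` prime factors and `c k n` is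
composite. -/
def E (k r : ℕ) : Set ℕ :=
  {n | (n ∈ R k r ∧ ∀ j < k, (c j n).primeFactorsList.length ≤ r) ∧ 1 < c k n ∧ ¬ (c k n).Prime}

/-- **Almost prime chains of exact length `k` at integers with restricted digits.** -/
theorem result (k : ℕ) (hk : 1 ≤ k) :
    ∃ c₀ : ℝ, 0 < c₀ ∧ ∃ r₀ : ℕ, 2 ≤ r₀ ∧ ∀ r : ℕ, r₀ ≤ r →
      (∀ n : ℕ, (∀ j < k, (c j n).Prime) → n ∈ R k r) ∧
      ∀ b : ℕ, 2 ≤ b → ∃ κ C : ℝ, 0 < κ ∧ 0 < C ∧ ∀ᶠ K : ℕ in atTop, ∀ A : ℕ → Finset ℕ,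
        (∀ i < K, A i ⊆ range b) → (b : ℝ) ^ K ≤ Real.exp (c₀ * K) * NA K A →
        ((∃ d ∈ A 0, ∀ j < k, (c j (d + b)).Coprime b) →
          κ * NA K A / (K : ℝ) ^ k ≤ ND b K A (E k r)) ∧
        (ND b K A (R k r) : ℝ) ≤ C * NA K A / (K : ℝ) ^ k := by
  obtain ⟨c₀, hc₀, r₀, hr₀, h⟩ := Pool.Agent.Y816.PD.exact_chain c (Or.inr fun _ _ => rfl) k hk
  refine ⟨c₀, hc₀, r₀, hr₀, fun r hr => ⟨fun n hn j hj p hp hd => ?_, h r hr⟩⟩
  have h2r : 2 ≤ r := hr₀.trans hr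
  have hn0 : (c 0 n).Prime := hn 0 hk
  have h1 : 2 ≤ n ∧ n ≤ c j n := by
    unfold c at hn0 ⊢
    have h1 : 1 ≤ 2 ^ j := Nat.one_le_two_pow
    have h3 := hn0.two_le
    rw [pow_zero, one_mul] at h3
    have h2 : n - 1 ≤ 2 ^ j * (n - 1) := by nlinarith
    omega
  rw [(Nat.prime_dvd_prime_iff_eq hp (hn j hj)).1 hd]
  exact Pool.Agent.TH977.PW.rpow_lt_of_le r n (c j n) h2r h1.1 h1.2

end Pool.Agent.Results.MP_39b545_nt.RestrictedDigits
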