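import Pool.Agent.Y862.OGI

set_option autoImplicit false

/-!
# Isolated pairs of consecutive primes in the Cunningham sequences of the second kind: one third of all times

`a_j(p) = 2 ^ j * (p - 1) + 1`. For every `R` and `ε > 0` there is `L` such that among any `T ≥ L` consecutive
integers `k` at least `(1/3 - ε) T` have the following property: for at least `x ^ (1 - η)` primes `p ≤ x`,
for every `η > 0` and arbitrarily large `x`, the term at time `k` is prime, all terms at times `0 < l < k`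
are composite, the `R` terms after time `k` are composite, and `p` is not a term at a time `0 < l ≤ R` of
the sequence of another prime.
-/

namespace Pool.Agent.Results.MP_39b545_nt.ThirdOfIsolatedGaps

open Filter

theorem result (R : ℕ) (ε : ℝ) (hε : 0 < ε) : ∃ L : ℕ, ∀ T : ℕ, L ≤ T → ∀ u : ℕ,
    (1 / 3 - ε) * (T : ℝ) ≤ ({k : ℕ | u < k ∧ k ≤ u + T ∧ ∀ η : ℝ, 0 < η → ∃ᶠ x : ℝ in atTop,
      x ^ (1 - η) ≤ ({p : ℕ | (p : ℝ) ≤ x ∧ p.Prime ∧ (2 ^ k * (p - 1) + 1).Prime ∧
        (∀ l, 0 < l → l < k → ¬ (2 ^ l * (p - 1) + 1).Prime) ∧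
        ∀ l, 0 < l → l ≤ R → ¬ (2 ^ (k + l) * (p - 1) + 1).Prime ∧
          ∀ q : ℕ, q.Prime → 2 ^ l * (q - 1) + 1 ≠ p}.ncard : ℝ)}.ncard : ℝ) := by
  have h := Pool.Agent.Y862.transfer3 2 (-1) 1 le_rfl (by norm_num) (by norm_num) one_pos
    (fun p hp h => absurd (Nat.dvd_one.1 (by simpa using h)) hp.one_lt.ne')
    (fun p j => 2 ^ j * (p - 1) + 1)
    (fun p j hp => by
      have h1 : 1 ≤ p := hp.one_lt.le
      rw [Pool.Agent.H447R3.IT.iter, Pool.Agent.W218.OG.B_two]
      push_cast [Nat.cast_sub h1]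
      ring) R ε hε
  simp only [one_mul] at h
  exact h

end Pool.Agent.Results.MP_39b545_nt.ThirdOfIsolatedGaps
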